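import Pool.Agent.Helper18.UW.GoalsP
import Pool.Agent.Helper87.EW.Tri

/-! Packet TriU of the project UW: from the game to the trapezoid (adapted from
`Pool/Agent/Helper4/EW/TriZ.lean`). -/

set_option autoImplicit false

namespace Pool.Agent.Helper49.UW

open Finset
open Pool.Agent.Helper18.EW Pool.Agent.Helper18.UW
open Pool.Agent.Helper43.Hw (T na va lz Play T_choose)
open Pool.Agent.Helper43.Gm (st mv nn Pri)
open Pool.Agent.Lead.Sh
open Pool.Agent.Helper18.SG (GoalA2)
open Pool.Agent.Helper87.EW (rows_subset)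

theorem sum_combu (m ms : ℕ → ℕ) (R N K τ s : ℕ) (κ x e P : ℕ → ℕ) (z : ℕ) :
    ∑ c ∈ range (N + K), combu m ms R N τ s κ x e P c z =
      uz m R N κ x z + uV R K τ s ms e P z := by
  rw [Finset.sum_range_add]
  unfold uz uV
  congr 1
  · refine sum_congr rfl fun c hc => ?_
    rw [mem_range] at hc
    unfold combu
    rw [if_pos hc]
  · refine sum_congr rfl fun i _ => ?_
    unfold combu
    rw [if_neg (by omega), Nat.add_sub_cancel_left]

theorem triZ_row (d h : ℕ) (hh : h ≤ d + 1) (k : ℕ) (hk : k < h) :
    ((triZ d h).filter (fun x => x.2 = k)).card = d + 1 - k := by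
  have : (triZ d h).filter (fun x => x.2 = k) = (range (d + 1 - k)).image (fun a => (a, k)) := by
    ext ⟨a, c⟩
    unfold triZ
    rw [mem_filter, mem_filter, mem_triD, mem_image]
    constructor
    · rintro ⟨⟨⟨-, h1⟩, h2⟩, h3⟩
      simp only at h1 h2 h3
      refine ⟨a, mem_range.2 (by omega), by rw [h3]⟩
    · rintro ⟨a', h1, h2⟩
      rw [mem_range] at h1
      have h3 : a' = a := congrArg Prod.fst h2
      have h4 : k = c := congrArg Prod.snd h2
      simp only
      omega
  rw [this, card_image_of_injective _ (fun a c hac => congrArg Prod.fst hac), card_range]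

theorem goalTriU : GoalTriU := by
  intro hA2 hPG hU1 hUG m ms μ δ d h N K τ s E κ x e P hh hhd hm hP hG hpa hk1 hk2
  obtain ⟨π, ε, hpri⟩ := hPG m ms μ δ h N K τ s E κ x e P hm hh hP hG hpa hk1 hk2
  have hrev := Pool.Agent.Helper43.Gm.PkF2.pri_rev _ _ _ _ _ _ hpri
  have f2 : ∀ x ∈ triZ d h, x.2 < h := by
    intro x hx
    unfold triZ at hx
    exact (mem_filter.1 hx).2
  constructor
  · intro hle
    refine hA2 h _ (N + K) _ _ _ _ f2 hrev ?_
    intro y hy
    rw [triZ_row d h hhd y hy, sum_combu]
    have := hle (h - 1 - y) (by omega)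
    omega
  · intro hle
    obtain ⟨D2, hD2, c1, c2, c3⟩ := rows_subset h (triZ d h)
      (fun y => ∑ c ∈ range (N + K), combu m ms h N τ s κ x e P c (h - 1 - y)) (by
        intro y hy
        rw [triZ_row d h hhd y hy, sum_combu]
        have := hle (h - 1 - y) (by omega)
        omega)
    have h1 : Inj D2 (rows (mu m ms N) (range (N + K))) := by
      refine hA2 h _ (N + K) _ _ _ _ c2 hrev ?_
      intro y hy
      exact (c1 y hy).le
    have hcard : (rows (mu m ms N) (range (N + K))).card = D2.card := by
      have e1 : ∑ y ∈ range h,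
          ∑ c ∈ range (N + K), combu m ms h N τ s κ x e P c (h - 1 - y) =
          ∑ y ∈ range h, ∑ c ∈ range (N + K), combu m ms h N τ s κ x e P c y :=
        sum_range_reflect (fun y => ∑ c ∈ range (N + K), combu m ms h N τ s κ x e P c y) h
      have e2 := (hU1 m h N κ x hm hh hP).2.2.2.2.2.2.2.2
      have e3 := (hUG μ δ h K τ s E ms e P hG).1.2.2.2
      rw [c3, card_rows, e1]
      simp only [sum_combu]
      rw [sum_add_distrib, e2, e3, Finset.sum_range_add]
      congr 1
      · refine sum_congr rfl fun c hc => ?_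
        rw [mem_range] at hc
        rw [T_choose]
        unfold mu
        rw [if_pos hc]
      · refine sum_congr rfl fun i _ => ?_
        rw [T_choose]
        unfold mu
        rw [if_neg (by omega), Nat.add_sub_cancel_left]
    obtain ⟨Q, hQ⟩ := h1
    have hInd : Ind D2 (rows (mu m ms N) (range (N + K))) := ⟨Q, hQ.ind hcard⟩
    exact hInd.mono hD2 subset_rfl

end Pool.Agent.Helper49.UW
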