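import Pool.Agent.Helper18.UW.GoalsZ

/-! Packet Z10t of the project UW: the zone (adapted from `Pool/Agent/Helper3/EW/Z10.lean`). -/

set_option autoImplicit false

namespace Pool.Agent.Helper49.UW

open Finset
open Pool.Agent.Helper43.Hw (T na va lz Play aa ac sc oo sk U Dd Sd Pn nx bb np)
open Pool.Agent.Helper18.EW Pool.Agent.Helper18.UW

/-- The numerical core. -/
theorem core {l w t W D Sd S E G Q H1 H2 H3 : ℤ} (hw : 0 < w) (hl : 0 < l) (hT : 0 < t)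
    (hTw : t ≤ w ^ 2) (hQ : 0 ≤ Q) (hD : w ^ 2 * Q ≤ 4096 * (l * D))
    (hW : 2 ^ 14 * (l * |W|) ≤ w ^ 2 * Q) (hS : l * Sd ≤ w * H1)
    (hS2 : 2 ^ 24 * (l * S) ≤ w * H2) (hE : l * E ≤ w * H3)
    (hH : 2 ^ 24 * H1 + H2 + 2 ^ 24 * H3 ≤ 2 ^ 10 * (w * Q))
    (h : D - Sd - S + W - E ≤ G * t) : Q ≤ 2 ^ 13 * (l * G) := by
  have h1 : l * (-W) ≤ l * |W| := mul_le_mul_of_nonneg_left (neg_le_abs W) hl.le
  have h2 : l * (D - Sd - S + W - E) ≤ l * (G * t) := mul_le_mul_of_nonneg_left h hl.le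
  have h3 : w * (2 ^ 24 * H1 + H2 + 2 ^ 24 * H3) ≤ w * (2 ^ 10 * (w * Q)) :=
    mul_le_mul_of_nonneg_left hH hw.le
  have h4 : t * Q ≤ w ^ 2 * Q := mul_le_mul_of_nonneg_right hTw hQ
  have h5 : Q * t ≤ (2 ^ 13 * (l * G)) * t := by
    have e1 : l * (D - Sd - S + W - E) = l * D - l * Sd - l * S - l * (-W) - l * E := by ring
    have e2 : w * (2 ^ 24 * H1 + H2 + 2 ^ 24 * H3) =
      2 ^ 24 * (w * H1) + w * H2 + 2 ^ 24 * (w * H3) := by ring
    have e3 : w * (2 ^ 10 * (w * Q)) = 2 ^ 10 * (w ^ 2 * Q) := by ring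
    have e4 : (2 ^ 13 * (l * G)) * t = 2 ^ 13 * (l * (G * t)) := by ring
    have e5 : Q * t = t * Q := by ring
    rw [e4, e5]
    rw [e1] at h2
    rw [e2, e3] at h3
    linarith
  exact le_of_mul_le_mul_right h5 hT

theorem T_le_sq {w : ℕ} (hw : 1 ≤ w) : T w ≤ w ^ 2 := by
  have h := Pool.Agent.Helper43.Hw.two_T w
  nlinarith

theorem goalZ10t (h3 : GoalE3) (h10a : GoalZ10at) (h10b : GoalZ10bt) : GoalZ10t := by
  intro μ R N K b l Lg q β s W L o k D S n κ x y h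
  have hl := h.par.l1
  have hR1 := h.par.R1
  have hLg := h.par.L1
  have hK := h.par.hK
  have hb1 := h.par.b1
  have hb2 := h.par.b2
  have hb : 1 ≤ b := le_trans (by omega) hb1
  have hKl : 2 ^ 33 * (K * l) ≤ μ := by
    calc 2 ^ 33 * (K * l) = 2 ^ 33 * b * (q + 1) * l := by rw [hK]; ring
      _ ≤ 2 ^ 33 * b * (q + 1) ^ 2 * l := by
          apply Nat.mul_le_mul_right
          apply Nat.mul_le_mul_left
          exact Nat.le_self_pow (by norm_num) _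
      _ ≤ μ := hb2
  have hμ : 1 ≤ μ := by
    refine le_trans ?_ hb2
    have : 0 < 2 ^ 33 * b * (q + 1) ^ 2 * l := by positivity
    omega
  have hR : μ + 2 ≤ R := by omega
  have hJs := h.ext.Js
  have hsy := h.sy
  have hy2 := h.y2
  have hyN := h.ex.2.1
  obtain ⟨a1, a2, a3⟩ := h10a μ R N K b l Lg q β s W L o k D S n κ x y h
  obtain ⟨b1, b2, b3⟩ := h10b μ R N K b l Lg q β s W L o k D S n κ x y h
  obtain ⟨-, c2⟩ := h3 μ R N κ x y hμ hR h.play (by omega) hyN (by omega)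
  have c2 := c2 b1
  have htot := h.ext.tot y hsy (by omega)
  have hSq := h.ext.Sq y hsy (by omega)
  have hlz : ∑ z ∈ range y, lz μ R N κ x z = ∑ z ∈ range y, L z :=
    Finset.sum_congr rfl fun z hz => h.ex.2.2 z (Finset.mem_range.1 hz).le
  rw [hlz, h.ex.2.2 y le_rfl] at c2
  have hDD := h.hD
  have hw1 := h.w1
  have hw3 := h.w3
  have hRy : R - y = (R - 1 - y) + 1 := by omega
  rw [hRy] at c2 htot hSq
  set w := R - 1 - y with hw
  have hw0 : 1 ≤ w := by omega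
  have hTw : T w ≤ w ^ 2 := T_le_sq hw0
  have hT0 : 0 < T w := by
    have := Pool.Agent.Helper43.Hw.two_T w
    have h2 : 0 < w * (w + 1) := by positivity
    omega
  -- the moving point
  set u := x y - na μ R y with hu
  have hkku : kk μ R κ x y ≤ u := by
    have e1 : kk μ R κ x y * (2 ^ 14 * l) ≤ u * (2 ^ 14 * l) := by
      calc kk μ R κ x y * (2 ^ 14 * l) ≤ kk μ R κ x y * (b * l + w) := by
            apply Nat.mul_le_mul_left
            have : 2 ^ 14 * l ≤ b * l := Nat.mul_le_mul_right _ (by omega)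
            omega
        _ ≤ 2 ^ 14 * l * u := b2
        _ = u * (2 ^ 14 * l) := by ring
    exact Nat.le_of_mul_le_mul_right e1 (by positivity)
  have hE : l * ((w + 1 + kk μ R κ x y) * u) ≤ w * (2 * l * w) := by
    calc l * ((w + 1 + kk μ R κ x y) * u) ≤ l * ((2 * w) * w) := by
          apply Nat.mul_le_mul_left
          exact Nat.mul_le_mul (by omega) (by omega)
      _ = w * (2 * l * w) := by ring
  have hS2 : 2 ^ 24 * (l * S y) ≤ w * (2 ^ 24 * (K * l) + (w + 1) * (b * l)) := by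
    calc 2 ^ 24 * (l * S y) = l * (2 ^ 24 * S y) := by ring
      _ ≤ l * (w * (2 ^ 24 * K + (w + 1) * b)) := Nat.mul_le_mul_left _ hSq
      _ = w * (2 ^ 24 * (K * l) + (w + 1) * (b * l)) := by ring
  have hH : 2 ^ 24 * (l * w + 84 * μ + 3 * K * l + 200 * 2 ^ 14 * l * w * Lg) +
      (2 ^ 24 * (K * l) + (w + 1) * (b * l)) + 2 ^ 24 * (2 * l * w) ≤
      2 ^ 10 * (w * (b * l + w)) := by
    have e1 : 2 ^ 42 * (l * w * Lg) ≤ w * (b * l) := by
      calc 2 ^ 42 * (l * w * Lg) = (l * w) * (2 ^ 42 * Lg) := by ring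
        _ ≤ (l * w) * b := Nat.mul_le_mul_left _ hb1
        _ = w * (b * l) := by ring
    have e2 : l * w ≤ l * w * Lg := Nat.le_mul_of_pos_right _ hLg
    have e3 : b * l ≤ w * (b * l) := Nat.le_mul_of_pos_left _ hw0
    have e4 : w * (b * l + w) = w * (b * l) + w * w := by ring
    have e5 : (w + 1) * (b * l) = w * (b * l) + b * l := by ring
    have e6 : 3 * K * l = 3 * (K * l) := by ring
    have e7 : 200 * 2 ^ 14 * l * w * Lg = 200 * 2 ^ 14 * (l * w * Lg) := by ring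
    have e8 : 2 * l * w = 2 * (l * w) := by ring
    rw [e4] at hw1
    rw [e4, e5, e6, e7, e8]
    omega
  have hQ : (0 : ℤ) ≤ ((b * l + w : ℕ) : ℤ) := by positivity
  have key := core (l := (l : ℤ)) (w := (w : ℤ)) (t := (T w : ℤ)) (W := W)
    (D := ((Dd μ R κ x y + D y : ℕ) : ℤ)) (Sd := (Sd μ R κ x y : ℤ)) (S := (S y : ℤ))
    (E := (((w + 1 + kk μ R κ x y) * u : ℕ) : ℤ))
    (G := (β : ℤ) + o y + oo μ R κ x y - ((N - κ y : ℕ) : ℤ))
    (Q := ((b * l + w : ℕ) : ℤ))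
    (H1 := ((l * w + 84 * μ + 3 * K * l + 200 * 2 ^ 14 * l * w * Lg : ℕ) : ℤ))
    (H2 := ((2 ^ 24 * (K * l) + (w + 1) * (b * l) : ℕ) : ℤ))
    (H3 := ((2 * l * w : ℕ) : ℤ))
    (by omega) (by omega) (by omega) (by exact_mod_cast hTw) hQ
    (by
      have : w ^ 2 * (b * l + w) ≤ 4096 * (l * (Dd μ R κ x y + D y)) := by
        rw [← mul_assoc]
        exact hDD
      exact_mod_cast this)
    (by
      have e : (2 ^ 14 * ((l : ℤ) * |W|)) = 2 ^ 14 * (l : ℤ) * |W| := by ring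
      rw [e]
      push_cast at hw3 ⊢
      exact hw3)
    (by exact_mod_cast a3)
    (by exact_mod_cast hS2)
    (by exact_mod_cast hE)
    (by exact_mod_cast hH)
    (by
      have c3 : ((Dd μ R κ x y : ℤ) + ((N - κ y : ℕ) : ℤ) * T w + ∑ z ∈ range y, (L z : ℤ) +
          ((w + 1 : ℕ) : ℤ) * L y) ≤
          (Sd μ R κ x y : ℤ) + oo μ R κ x y * T w + N * T μ +
            (((w + 1 + kk μ R κ x y) * u : ℕ) : ℤ) := by exact_mod_cast c2
      have e : ((β : ℤ) + o y + oo μ R κ x y - ((N - κ y : ℕ) : ℤ)) * (T w : ℤ) =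
          ((β : ℤ) + o y) * T w + oo μ R κ x y * T w - ((N - κ y : ℕ) : ℤ) * T w := by ring
      rw [e]
      have e2 : ((Dd μ R κ x y + D y : ℕ) : ℤ) = (Dd μ R κ x y : ℤ) + D y := by push_cast; ring
      rw [e2]
      linarith)
  have hG : (0 : ℤ) ≤ 2 ^ 13 * ((l : ℤ) * ((β : ℤ) + o y + oo μ R κ x y - ((N - κ y : ℕ) : ℤ))) :=
    hQ.trans key
  have fin : ((b * l + w : ℕ) : ℤ) + 2 ^ 14 * l * ((N - κ y : ℕ) : ℤ) ≤
      2 ^ 14 * l * ((β : ℤ) + o y + oo μ R κ x y) := by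
    have e : (2 ^ 14 : ℤ) * l * ((β : ℤ) + o y + oo μ R κ x y) -
        2 ^ 14 * l * ((N - κ y : ℕ) : ℤ) =
        2 * (2 ^ 13 * ((l : ℤ) * ((β : ℤ) + o y + oo μ R κ x y - ((N - κ y : ℕ) : ℤ)))) := by
      ring
    linarith
  exact_mod_cast fin

end Pool.Agent.Helper49.UW
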